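import Pool.Agent.Lib.MP_67d80e_pr_u3.Chk0
import Pool.Agent.Lib.MP_67d80e_pr_u3.Chk1
import Pool.Agent.Lib.MP_67d80e_pr_u3.Chk2
import Pool.Agent.Lib.MP_67d80e_pr_u3.Chk3
import Pool.Agent.Lib.MP_67d80e_pr_opt.HasUB

/-!
The functional of the table of option labels, dimension 3.
-/

set_option autoImplicit false
set_option maxRecDepth 100000

namespace Pool.Agent.Lib.MP_67d80e_pr_u3

open Pool.Agent.Lib.MP_67d80e_pr Pool.Agent.Lib.MP_67d80e_pr_all Pool.Agent.Lib.MP_67d80e_pr_lab Pool.Agent.Lib.MP_67d80e_pr_opt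

theorem chk_all : ∀ i < cst.N, ∃ x, chk cst i x = 0 := by
  intro i hi
  change i < 10793 at hi
  by_cases h2700 : i < 2700
  · exact errL_spec chk_0 i (by omega) h2700
  by_cases h5400 : i < 5400
  · exact errL_spec chk_2700 i (by omega) h5400
  by_cases h8100 : i < 8100
  · exact errL_spec chk_5400 i (by omega) h8100
  exact errL_spec chk_8100 i (by omega) hi

theorem hasPsi_all : ∃ Ψ, HasPsi 2 (11 / 4) (634203 / 100000) Ψ := by
  have h := hasPsi_of_chk cst_ok root_ok chk_all
  have h1 : cst.q = 11 / 4 := by unfold PC.q cst; norm_num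
  have h2 : cst.lam = 634203 / 100000 := by unfold PC.lam cst; norm_num
  rwa [h1, h2] at h

/-- the upper bound in dimension 3 -/
theorem hasUB : HasUB 2 (62696 / 10000) :=
  hasUB_psi (a := 175) (b := 173) hasPsi_all (by norm_num) (by norm_num) (by norm_num) (by norm_num)
    (by norm_num) (by norm_num)

end Pool.Agent.Lib.MP_67d80e_pr_u3
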